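import Pool.Agent.H74.TO.Main

namespace Pool.Agent.Results.MP_7f5033_co.TorusOdim

open SimpleGraph Pool.Agent.H74.TO

/-- The value of the outer multiset dimension of the torus `C_a □ C_b`, where `3 ≤ a ≤ b`. -/
def torusOdim (a b : ℕ) : ℕ :=
  if a = 3 ∧ b = 3 then 8
  else if (a = 3 ∧ b = 5) ∨ (a = 4 ∧ b = 4) then 7
  else if (a = 5 ∧ b = 5) ∨ (a = 6 ∧ b = 6) then 6
  else if a = 3 ∧ b % 2 = 0 ∧ 12 ≤ b then 3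
  else if b ≤ 7 ∨ b = 9 ∨ b = 11 ∨ (b = 8 ∧ a ≠ 3) ∨ (b = 10 ∧ a ≠ 3 ∧ a ≠ 5) ∨
      (b = 13 ∧ a ≠ 3) ∨ ((b = 12 ∨ b = 14) ∧ a % 2 = 1 ∧ 7 ≤ a) ∨
      (b = 17 ∧ a % 2 = 1 ∧ 7 ≤ a ∧ a ≠ 15) then 5
  else 4

/-- The outer multiset dimension of `C_s □ C_t` for all `s, t ≥ 3`. -/
theorem result (s t : ℕ) (hs : 3 ≤ s) (ht : 3 ≤ t) :
    odim ((cycleGraph s) □ (cycleGraph t)) = torusOdim (min s t) (max s t) :=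
  Pool.Agent.H74.TO.main hs ht

end Pool.Agent.Results.MP_7f5033_co.TorusOdim
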